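import Pool.Agent.K6.H54.TR.Mai

/-!
# Project TR (helper54): groups which act on trees
-/

set_option autoImplicit false

namespace Pool.Agent.K6.H54.TR

open Pool.Agent.N212.SG Pool.Agent.N991.QS Pool.Agent.K6.H86.QS

variable {Q : Type} [Group Q]

/-- The common stabilizer of the vertices `v i` of the trees. -/
def stab {I : Type} (a : I → TreeAction Q) (v : ∀ i, (a i).V) : Subgroup Q where
  carrier := {q | ∀ i, (a i).act q (v i) = v i}
  one_mem' := fun i => by rw [map_one]; rfl
  mul_mem' := fun {x y} hx hy i => by rw [map_mul, RelIso.mul_apply, hy i, hx i]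
  inv_mem' := fun {x} hx i => by
    have h2 : ((a i).act x)⁻¹ ((a i).act x (v i)) = ((a i).act x)⁻¹ (v i) := by rw [hx i]
    rw [← RelIso.mul_apply, inv_mul_cancel] at h2
    rw [map_inv]
    exact h2.symm

theorem infinite_of_relIndex {L S : Subgroup Q} (hle : L ≤ S) (h : L.relIndex S ≠ 0)
    (hS : Infinite S) : Infinite L := by
  rw [← not_finite_iff_infinite]
  intro h0
  have h1 : Finite (L.subgroupOf S) := Finite.of_equiv _ (Subgroup.subgroupOfEquivOfLe hle).symm.toEquiv
  have h2 : (L.subgroupOf S).FiniteIndex := ⟨h⟩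
  have h3 : Finite (S ⧸ L.subgroupOf S) := Subgroup.finite_quotient_of_finiteIndex
  have h4 : Finite S := Finite.of_equiv _ (Subgroup.groupEquivQuotientProdSubgroup
    (s := L.subgroupOf S)).symm
  exact (not_finite_iff_infinite.2 hS) h4

theorem fg_of_relIndex {L S : Subgroup Q} (hle : L ≤ S) (h : L.relIndex S ≠ 0)
    (hS : S.FG) : L.FG := by
  have hS' : Group.FG S := (Group.fg_iff_subgroup_fg S).2 hS
  have h2 : (L.subgroupOf S).FiniteIndex := ⟨h⟩
  have h1 : Group.FG (L.subgroupOf S) := Subgroup.fg_of_index_ne_zero _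
  exact fg_of_subgroupOf hle ((Group.fg_iff_subgroup_fg _).1 h1)

theorem VirtIndic.equiv {K K' : Type} [Group K] [Group K'] (e : K ≃* K') (h : VirtIndic K) :
    VirtIndic K' := by
  have h1 : VI K := h
  exact VI.of_surj e.symm.toMonoidHom e.symm.surjective h1

theorem VirtIndic.of_le {L S : Subgroup Q} (hle : L ≤ S) (h : L.relIndex S ≠ 0)
    (hL : VirtIndic L) : VirtIndic S := by
  have h2 : (L.subgroupOf S).FiniteIndex := ⟨h⟩
  have h3 : VI (L.subgroupOf S) := VirtIndic.equiv (Subgroup.subgroupOfEquivOfLe hle).symm hL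
  exact VI.of_sub h2 h3

theorem RingInfinite.of_le {L S : Subgroup Q} (hle : L ≤ S) (hL : RingInfinite L) :
    RingInfinite S := by
  obtain ⟨Q', hQ', R, i, n, ρ, hρ⟩ := hL
  refine ⟨Q', hQ', R, i, n, ρ, ?_⟩
  have h1 : (L.subgroupOf Q').map ρ ≤ (S.subgroupOf Q').map ρ :=
    Subgroup.map_mono (fun x hx => hle hx)
  exact Infinite.of_injective (Subgroup.inclusion h1) (Subgroup.inclusion_injective h1)

theorem exists_fix {S : Subgroup Q} (hS : ¬ TreeUnbounded S) (a : TreeAction Q) :
    ∃ L : Subgroup Q, L ≤ S ∧ L.relIndex S ≠ 0 ∧ FixesVertex a L := by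
  have h1 : ∃ L : Subgroup (⊤ : Subgroup Q), L ≤ S.subgroupOf ⊤ ∧
      (L.subgroupOf (S.subgroupOf ⊤)).FiniteIndex ∧
      FixesVertex (a.pull (⊤ : Subgroup Q).subtype) L := by
    by_contra hcon
    push Not at hcon
    exact hS ⟨⊤, inferInstance, a.pull (⊤ : Subgroup Q).subtype, hcon⟩
  obtain ⟨L, hle, hfi, v, hv⟩ := h1
  have h2 : (S.subgroupOf ⊤).map (⊤ : Subgroup Q).subtype = S := by
    rw [Subgroup.subgroupOf_map_subtype, inf_top_eq]
  refine ⟨L.map (⊤ : Subgroup Q).subtype, ?_, ?_, v, ?_⟩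
  · rintro _ ⟨x, hx, rfl⟩
    exact hle hx
  · intro h0
    rw [← h2, Subgroup.relIndex_map_map_of_injective _ _ (Subgroup.subtype_injective _)] at h0
    exact hfi.index_ne_zero h0
  · rintro _ ⟨x, hx, rfl⟩
    exact hv x hx

/-- Groups acting on finitely many trees. -/
theorem treeTame_stab {I : Type} [Finite I] (a : I → TreeAction Q)
    (h : ∀ (v : ∀ i, (a i).V) (S : Subgroup Q), S ≤ stab a v → S.FG → Infinite S →
      VirtIndic S ∨ RingInfinite S) : TreeTame Q := by
  intro S hS hinf
  by_cases hT : TreeUnbounded S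
  · exact Or.inr (Or.inr hT)
  choose L hle hidx hfix using fun i => exists_fix hT (a i)
  choose v hv using hfix
  set M : Subgroup Q := S ⊓ ⨅ i, L i with hM
  have hMS : M ≤ S := inf_le_left
  have hMidx : M.relIndex S ≠ 0 := by
    refine Subgroup.relIndex_inf_ne_zero ?_ (Subgroup.relIndex_iInf_ne_zero hidx)
    rw [Subgroup.relIndex_self]
    exact one_ne_zero
  have hMst : M ≤ stab a v := fun x hx i => hv i x ((Subgroup.mem_iInf.1 hx.2) i)
  rcases h v M hMst (fg_of_relIndex hMS hMidx hS) (infinite_of_relIndex hMS hMidx hinf) with h1 | h1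
  · exact Or.inl (h1.of_le hMS hMidx)
  · exact Or.inr (Or.inl (h1.of_le hMS))

/-- Groups acting on finitely many trees, all of whose common stabilizers of vertices are
`Indicable`. -/
theorem treeTame_indicable {I : Type} [Finite I] (a : I → TreeAction Q)
    (h : ∀ v : ∀ i, (a i).V, Indicable (stab a v)) : TreeTame Q := by
  refine treeTame_stab a fun v S hle hS hinf => Or.inl ?_
  have e := Subgroup.subgroupOfEquivOfLe hle
  have h1 : (S.subgroupOf (stab a v)).FG := subgroupOf_fg hle hS
  have h2 : Infinite (S.subgroupOf (stab a v)) := Infinite.of_injective e.symm e.symm.injective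
  exact VirtIndic.equiv e (h v _ h1 h2)

theorem indicable_ea (E : Type) [Group E] (hE : ElemAmenable.{0} E) : Indicable E := by
  intro S hS hinf
  exact sec_of_elemAmenable Pool.Agent.N987.QS.t_FAB E hE S S (MonoidHom.id S)
    Function.surjective_id ((Group.fg_iff_subgroup_fg S).2 hS) hinf

theorem indicable_li (E : Type) [Group E] (hE : LocallyIndicable E) : Indicable E := by
  intro S hS hinf
  have hne : S ≠ ⊥ := by
    rintro rfl
    exact (not_finite_iff_infinite.2 hinf) inferInstance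
  obtain ⟨f, hf⟩ := hE S hS hne
  refine ⟨⊤, inferInstance, f.comp (MonoidHom.toAdditive (⊤ : Subgroup S).subtype), fun h0 => hf ?_⟩
  refine AddMonoidHom.ext fun x => ?_
  exact DFunLike.congr_fun h0 (Additive.ofMul (⟨Additive.toMul x, Subgroup.mem_top _⟩ :
    (⊤ : Subgroup S)))

theorem Tame.ringTame (h : Tame Q) : RingTame Q := by
  intro S hS hinf
  rcases h S hS hinf with h1 | ⟨Q', hQ', n, ρ, hρ⟩
  · exact Or.inl h1
  · exact Or.inr ⟨Q', hQ', ℂ, inferInstance, n, ρ, hρ⟩

theorem RingTame.treeTame (h : RingTame Q) : TreeTame Q := fun S hS hinf =>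
  (h S hS hinf).imp_right Or.inl

theorem ringTame_gl (R : Type) [CommRing R] (n : ℕ) : RingTame (GL (Fin n) R) := by
  intro S hS hinf
  refine Or.inr ⟨⊤, inferInstance, R, inferInstance, n, (⊤ : Subgroup (GL (Fin n) R)).subtype, ?_⟩
  have h2 : (S.subgroupOf ⊤).map (⊤ : Subgroup (GL (Fin n) R)).subtype = S := by
    rw [Subgroup.subgroupOf_map_subtype, inf_top_eq]
  rw [h2]
  exact hinf

end Pool.Agent.K6.H54.TR
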