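import Pool.Agent.K6.H54.TR.Tre

/-!
# Project TR (helper54): the image of the good subgroup
-/

set_option autoImplicit false

namespace Pool.Agent.K6.H54.TR

open Pool.Agent.N212.SG Pool.Agent.N991.QS Pool.Agent.K6.H86.QS

variable {G : Type} [Group G]

/-- The representations over commutative rings have virtually nilpotent images. -/
def RingImagesN (G : Type) [Group G] : Prop :=
  ∀ H : Subgroup G, H.FiniteIndex → ∀ (R : Type) [CommRing R] (n : ℕ) (ρ : H →* GL (Fin n) R),
    VirtNilpotent ρ.range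

theorem virtIndic_false {D : Subgroup G} (hD : FAb D) {Q : Type} [Group Q] (f : G →* Q)
    (h : VirtIndic (D.map f)) : False := by
  obtain ⟨L, hL, k, hk⟩ := h
  let g' : D →* (D.map f) :=
    { toFun := fun x => ⟨f x, ⟨x, x.2, rfl⟩⟩
      map_one' := Subtype.ext (map_one f)
      map_mul' := fun x y => Subtype.ext (map_mul f x.1 y.1) }
  have hg' : Function.Surjective g' := by
    rintro ⟨_, ⟨x, hx, rfl⟩⟩
    exact ⟨⟨x, hx⟩, rfl⟩
  let e : (L.comap g') →* L :=
    { toFun := fun x => ⟨g' x, x.2⟩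
      map_one' := Subtype.ext (map_one g')
      map_mul' := fun x y => Subtype.ext (map_mul g' x.1 y.1) }
  have h1 := hD (L.comap g') (comap_fi g' hL) (k.comp (MonoidHom.toAdditive e))
  have h1' : ∀ z : L.comap g', k (Additive.ofMul (e z)) = 0 := fun z =>
    DFunLike.congr_fun h1 (Additive.ofMul z)
  apply hk
  refine AddMonoidHom.ext fun x => ?_
  obtain ⟨y, hy⟩ := hg' (Additive.toMul x : L)
  have hy2 : y ∈ L.comap g' := by
    rw [Subgroup.mem_comap, hy]
    exact (Additive.toMul x : L).2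
  have h2 := h1' ⟨y, hy2⟩
  have h3 : e ⟨y, hy2⟩ = (Additive.toMul x : L) := Subtype.ext hy
  rw [h3] at h2
  exact h2

theorem ringInfinite_false (hfab : S_FAB) (hring : RingImagesN G) {D : Subgroup G}
    (hDfg' : Group.FG D) (hD : FAb D) {Q : Type} [Group Q] (f : G →* Q)
    (h : RingInfinite (D.map f)) : False := by
  obtain ⟨Q', hQ', R, _, n, ρ, hρ⟩ := h
  have hG' : (Q'.comap f).FiniteIndex := comap_fi f hQ'
  let r : (Q'.comap f) →* GL (Fin n) R := ρ.comp
    { toFun := fun x => ⟨f x, x.2⟩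
      map_one' := Subtype.ext (map_one f)
      map_mul' := fun x y => Subtype.ext (map_mul f x.1 y.1) }
  have hr := hring (Q'.comap f) hG' R n r
  have hD₁ : ((Q'.comap f).subgroupOf D).FiniteIndex := inferInstance
  let i : ((Q'.comap f).subgroupOf D) →* (Q'.comap f) :=
    { toFun := fun x => ⟨((x : D) : G), x.2⟩
      map_one' := rfl
      map_mul' := fun _ _ => rfl }
  have h1 := (hD.sub hD₁).ker_vnil hfab (Subgroup.fg_of_index_ne_zero _)
    (r.rangeRestrict.comp i) hr
  have h2 : Finite (r.rangeRestrict.comp i).range := by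
    have h3 : Finite (((Q'.comap f).subgroupOf D) ⧸ (r.rangeRestrict.comp i).ker) :=
      Subgroup.finite_quotient_of_finiteIndex
    exact Finite.of_equiv _ (QuotientGroup.quotientKerEquivRange _).toEquiv
  have h3 : (((D.map f).subgroupOf Q').map ρ : Set (GL (Fin n) R)) ⊆
      (fun x : r.range => (x : GL (Fin n) R)) '' ((r.rangeRestrict.comp i).range : Set r.range) := by
    rintro _ ⟨y, ⟨d, hd, hdy⟩, rfl⟩
    have hd2 : d ∈ Q'.comap f := by
      rw [Subgroup.mem_comap, hdy]
      exact y.2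
    refine ⟨r.rangeRestrict ⟨d, hd2⟩, ⟨⟨⟨d, hd⟩, hd2⟩, rfl⟩, ?_⟩
    change ρ ⟨f d, hd2⟩ = ρ y
    congr 1
    exact Subtype.ext hdy
  have h4 : ((r.rangeRestrict.comp i).range : Set r.range).Finite := Set.finite_coe_iff.1 h2
  have h5 := (h4.image (fun x : r.range => (x : GL (Fin n) R))).subset h3
  exact (not_finite_iff_infinite.2 hρ) h5.to_subtype

theorem treeUnbounded_false (htree : ElementaryOnTrees G) {D : Subgroup G}
    (hDfg' : Group.FG D) (hD : FAb D) {Q : Type} [Group Q] (f : G →* Q)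
    (h : TreeUnbounded (D.map f)) : False := by
  obtain ⟨Q', hQ', a, ha⟩ := h
  have hG' : (Q'.comap f).FiniteIndex := comap_fi f hQ'
  let g : (Q'.comap f) →* Q' :=
    { toFun := fun x => ⟨f x, x.2⟩
      map_one' := Subtype.ext (map_one f)
      map_mul' := fun x y => Subtype.ext (map_mul f x.1 y.1) }
  obtain ⟨A₁, hA₁, hfix⟩ := htree (Q'.comap f) hG' (a.pull g)
  set B : Subgroup G := A₁.map (Q'.comap f).subtype with hB
  have hBfi : B.FiniteIndex := map_finiteIndex hG' hA₁
  set M : Subgroup G := D ⊓ B with hM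
  have hMsub : M.subgroupOf D = B.subgroupOf D := Subgroup.inf_subgroupOf_left B D
  have hMfi : (M.subgroupOf D).FiniteIndex := by
    rw [hMsub]
    infer_instance
  have hMfab : FAb M := (hD.sub hMfi).equiv (Subgroup.subgroupOfEquivOfLe inf_le_left)
  have hMfg : Group.FG M := by
    have h1 : Group.FG (M.subgroupOf D) := Subgroup.fg_of_index_ne_zero _
    exact (Group.fg_iff_subgroup_fg M).2 (fg_of_subgroupOf inf_le_left
      ((Group.fg_iff_subgroup_fg _).1 h1))
  have hMmem : ∀ x : M, ∃ hx : ((x : G) ∈ Q'.comap f), (⟨(x : G), hx⟩ : Q'.comap f) ∈ A₁ := by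
    rintro ⟨x, hx⟩
    obtain ⟨y, hy, hyx⟩ := hx.2
    subst hyx
    exact ⟨y.2, hy⟩
  let gM : M →* Q' :=
    { toFun := fun x => ⟨f x, (hMmem x).1⟩
      map_one' := Subtype.ext (map_one f)
      map_mul' := fun x y => Subtype.ext (map_mul f x.1 y.1) }
  -- a fixed vertex
  have hv : ∃ v : a.V, ∀ x : M, a.act (gM x) v = v := by
    rcases hfix with ⟨v, hv⟩ | ⟨r, hr, hadj, hs⟩
    · exact ⟨v, fun x => hv _ (hMmem x).2⟩
    · have h1 : FixesEnd (a.pull gM) ⊤ := ⟨r, hr, hadj, fun x _ => hs _ (hMmem x).2⟩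
      obtain ⟨v, hv⟩ := end_vertex (a.pull gM) ⊤ h1 ((Group.fg_def).1 hMfg)
        (hMfab ⊤ inferInstance)
      exact ⟨v, fun x => hv x (Subgroup.mem_top x)⟩
  obtain ⟨v, hv⟩ := hv
  refine ha gM.range ?_ ?_ ⟨v, ?_⟩
  · rintro _ ⟨x, rfl⟩
    exact ⟨x, x.2.1, rfl⟩
  · -- finite index
    have h1 : gM.range = (M.map f).subgroupOf Q' := by
      ext y
      constructor
      · rintro ⟨x, rfl⟩
        exact ⟨x, x.2, rfl⟩
      · rintro ⟨x, hx, hxy⟩
        exact ⟨⟨x, hx⟩, Subtype.ext hxy⟩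
    have h2 : (M.map f).relIndex (D.map f) ≠ 0 := by
      let g' : D →* (D.map f) :=
        { toFun := fun x => ⟨f x, ⟨x, x.2, rfl⟩⟩
          map_one' := Subtype.ext (map_one f)
          map_mul' := fun x y => Subtype.ext (map_mul f x.1 y.1) }
      have hg' : Function.Surjective g' := by
        rintro ⟨_, ⟨x, hx, rfl⟩⟩
        exact ⟨⟨x, hx⟩, rfl⟩
      have h3 : (M.subgroupOf D).map g' = (M.map f).subgroupOf (D.map f) := by
        ext y
        constructor
        · rintro ⟨x, hx, rfl⟩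
          exact ⟨x, hx, rfl⟩
        · rintro ⟨x, hx, hxy⟩
          exact ⟨⟨x, hx.1⟩, hx, Subtype.ext hxy⟩
      have h4 := Subgroup.index_map_dvd (M.subgroupOf D) (f := g') hg'
      rw [h3] at h4
      intro h0
      have h5 : ((M.map f).subgroupOf (D.map f)).index = 0 := h0
      rw [h5] at h4
      exact hMfi.index_ne_zero (Nat.eq_zero_of_zero_dvd h4)
    rw [h1, Subgroup.finiteIndex_iff]
    intro h0
    have h3 : ((M.map f).comap Q'.subtype).relIndex ((D.map f).subgroupOf Q') = 0 := h0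
    rw [Subgroup.relIndex_comap] at h3
    refine h2 (Subgroup.relIndex_eq_zero_of_le_right ?_ h3)
    rintro _ ⟨y, hy, rfl⟩
    exact hy
  · rintro _ ⟨x, rfl⟩
    exact hv x

/-- The image of `D` is finite. -/
theorem finite_map (hfab : S_FAB) (hring : RingImagesN G) (tr : Prop)
    (htree : tr → ElementaryOnTrees G) {D : Subgroup G} (hDfg : D.FG) (hD : FAb D)
    {Q : Type} [Group Q] (f : G →* Q)
    (hQ : ∀ S : Subgroup Q, S.FG → Infinite S →
      VirtIndic S ∨ RingInfinite S ∨ (tr ∧ TreeUnbounded S)) : Finite (D.map f) := by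
  by_contra hinf
  rw [not_finite_iff_infinite] at hinf
  have hDfg' : Group.FG D := (Group.fg_iff_subgroup_fg D).2 hDfg
  rcases hQ (D.map f) (fg_map f hDfg) hinf with h | h | ⟨h1, h2⟩
  · exact virtIndic_false hD f h
  · exact ringInfinite_false hfab hring hDfg' hD f h
  · exact treeUnbounded_false (htree h1) hDfg' hD f h2

/-- The good subgroup in the kernel. -/
theorem good_of_finite (hfinn : S_FINN) {A D : Subgroup G} (hw : Wit A D) (hDfg : D.FG)
    {Q : Type} [Group Q] (f : G →* Q) (hfin : Finite (D.map f)) :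
    (∃ A' : Subgroup G, Wit A' (D ⊓ f.ker)) ∧ (D ⊓ f.ker).FG ∧
      ((D ⊓ f.ker).subgroupOf D).FiniteIndex := by
  have hDfg' : Group.FG D := (Group.fg_iff_subgroup_fg D).2 hDfg
  let g : D →* Q := f.comp D.subtype
  have hgr : g.range = D.map f := by
    rw [MonoidHom.range_comp, Subgroup.range_subtype]
  have hker : g.ker.FiniteIndex := by
    refine finiteIndex_ker_of_range g ?_
    rw [hgr]
    exact hfin
  have hidx : (D ⊓ f.ker).subgroupOf D = g.ker := by
    ext x
    rw [Subgroup.mem_subgroupOf, MonoidHom.mem_ker]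
    exact ⟨fun h => h.2, fun h => ⟨x.2, h⟩⟩
  obtain ⟨A', _, hA'⟩ := finn hfinn hw (inf_le_left : D ⊓ f.ker ≤ D) (by rw [hidx]; exact hker)
    (fun h hh d hd => ⟨hw.norm h hh d hd.1, (MonoidHom.normal_ker f).conj_mem d hd.2 h⟩)
  refine ⟨⟨A', hA'⟩, ?_, by rw [hidx]; exact hker⟩
  refine fg_of_subgroupOf inf_le_left ?_
  rw [hidx]
  have h1 : Group.FG g.ker := Subgroup.fg_of_index_ne_zero _
  exact (Group.fg_iff_subgroup_fg _).1 h1

end Pool.Agent.K6.H54.TR
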