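import Pool.Agent.K6.H54.TR.Hom

/-!
# Project TR (helper54): main theorems
-/

set_option autoImplicit false

namespace Pool.Agent.K6.H54.TR

open Pool.Agent.N212.SG Pool.Agent.N991.QS Pool.Agent.K6.H86.QS

/-! ### representations over rings -/

theorem ea_of_nilpotent (K : Type) [Group K] [Group.IsNilpotent K] : ElemAmenable.{0} K := by
  refine Group.nilpotent_center_quotient_ind (P := fun K _ _ => ElemAmenable.{0} K) K ?_ ?_
  · intro K _ _
    exact ElemAmenable.finite K inferInstance
  · intro K _ _ ih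
    exact ElemAmenable.ext K (Subgroup.center K)
      (ElemAmenable.comm _ (fun a b => Subtype.ext ((Subgroup.mem_center_iff.1 b.2 a)))) ih

theorem ea_of_virtNilpotent (K : Type) [Group K] (h : VirtNilpotent K) : ElemAmenable.{0} K := by
  obtain ⟨A, hA, hn⟩ := h
  have h1 : A.normalCore.FiniteIndex := inferInstance
  refine ElemAmenable.ext K A.normalCore ?_ (ElemAmenable.finite _ inferInstance)
  refine ElemAmenable.sub A A.normalCore (Subgroup.inclusion A.normalCore_le)
    (Subgroup.inclusion_injective _) (ea_of_nilpotent A)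

theorem virtNilpotent_surj {K K' : Type} [Group K] [Group K'] (g : K →* K')
    (hg : Function.Surjective g) (h : VirtNilpotent K) : VirtNilpotent K' := by
  obtain ⟨A, hA, hn⟩ := h
  refine ⟨A.map g, ?_, ?_⟩
  · rw [Subgroup.finiteIndex_iff]
    intro h0
    have h2 := Subgroup.index_map_dvd A hg
    rw [h0] at h2
    exact hA.index_ne_zero (Nat.eq_zero_of_zero_dvd h2)
  · exact Group.nilpotent_of_surjective (g.subgroupMap A) (MonoidHom.subgroupMap_surjective g A)

theorem ringImages (hrng : S_RNG) {G : Type} [Group G] (hG : IsQuasiSpecialGroup G)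
    (hF : FieldImagesN G) : RingImagesN G := by
  intro H hH R _ n ρ
  have hGH := isQS_sub hG hH
  have h1 : ElemAmenable.{0} ρ.range := by
    refine hrng H hGH.fg (fun K _ m σ => ?_) R n ρ
    exact ea_of_virtNilpotent _ (hF H hH K m σ)
  have h2 := virtNil (Pool.Agent.N984.QS.t_FGZ Pool.Agent.N985.QS.TAU.t_TAU)
      Pool.Agent.N986.QS.t_EIGN Pool.Agent.N985.QS.COC.t_COC Pool.Agent.N987.QS.t_AFF
      Pool.Agent.N987.QS.t_FINN Pool.Agent.N987.QS.t_FAB Pool.Agent.N987.QS.t_INTG
      Pool.Agent.N987.QS.t_RANK hGH ρ.range ρ.rangeRestrict h1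
  refine virtNilpotent_surj (ρ.rangeRestrict.range.subtype) ?_ h2
  intro x
  obtain ⟨y, hy⟩ := ρ.rangeRestrict_surjective x
  exact ⟨⟨x, y, hy⟩, rfl⟩

/-! ### special type: virtually nilpotent images -/

theorem main_gen (hrng : S_RNG) {G : Type} [Group G] (hG : IsSpecialTypeGroup G)
    (hF : FieldImagesN G) (tr : Prop) (htree : tr → ElementaryOnTrees G)
    {Q : Type} [Group Q] (f : G →* Q)
    (hQ : ∀ S : Subgroup Q, S.FG → Infinite S →
      VirtIndic S ∨ RingInfinite S ∨ (tr ∧ TreeUnbounded S)) :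
    ∃ A D : Subgroup G, Wit A D ∧ D.FG ∧ D ≤ f.ker := by
  obtain ⟨H, D, hw, hDfg, hD⟩ := exists_wit' hG
  have hfin := finite_map Pool.Agent.N987.QS.t_FAB (ringImages hrng hG.qs hF) tr htree hDfg hD f hQ
  obtain ⟨⟨A', hA'⟩, h1, _⟩ := good_of_finite Pool.Agent.N987.QS.t_FINN hw hDfg f hfin
  exact ⟨A', D ⊓ f.ker, hA', h1, inf_le_right⟩

theorem main_ring (hrng : S_RNG) {G : Type} [Group G] (hG : IsSpecialTypeGroup G)
    (hF : FieldImagesN G) {Q : Type} [Group Q] (f : G →* Q) (hQ : RingTame Q) :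
    VirtTwo f.range ∧ f.ker.FG := by
  obtain ⟨A, D, hw, hDfg, hDk⟩ := main_gen hrng hG hF False (fun h => h.elim) f
    (fun S h1 h2 => (hQ S h1 h2).imp_right Or.inl)
  exact concl Pool.Agent.N987.QS.t_FAB Pool.Agent.N985.QS.NOE.t_NOE hG f hw hDfg hDk

theorem main_tree (hrng : S_RNG) {G : Type} [Group G] (hG : IsSpecialTypeGroup G)
    (hF : FieldImagesN G) (htree : ElementaryOnTrees G) {Q : Type} [Group Q] (f : G →* Q)
    (hQ : TreeTame Q) : VirtTwo f.range ∧ f.ker.FG := by
  obtain ⟨A, D, hw, hDfg, hDk⟩ := main_gen hrng hG hF True (fun _ => htree) f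
    (fun S h1 h2 => (hQ S h1 h2).imp_right (fun h => h.imp_right (fun h => ⟨trivial, h⟩)))
  exact concl Pool.Agent.N987.QS.t_FAB Pool.Agent.N985.QS.NOE.t_NOE hG f hw hDfg hDk

/-! ### the projective case: virtually abelian images -/

/-- The elements of the commutator subgroup have finite order in the nilpotent quotients. -/
def AbelianQuotients (G : Type) [Group G] : Prop :=
  ∀ H N : Subgroup G, Wit H N → ∀ x ∈ H.lowerCentralSeries 1, ∃ n : ℕ, n ≠ 0 ∧ x ^ n ∈ N

theorem isST_of_ab {G : Type} [Group G] (hG : IsQuasiSpecialGroup G) (hab : AbelianQuotients G) :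
    IsSpecialTypeGroup G where
  qs := hG
  nil H N hw x hx := hab H N hw x (Subgroup.lowerCentralSeries_antitone (S := H) (by omega) hx)

theorem concl_ab {G : Type} [Group G] (hG : IsQuasiSpecialGroup G) (hab : AbelianQuotients G)
    {Q : Type} [Group Q] (f : G →* Q) {A D : Subgroup G}
    (hw : Wit A D) (hDk : D ≤ f.ker) : VirtAbelian f.range := by
  have hfg := hG.fg
  obtain ⟨c, hc⟩ := hw.nil
  have := hw.fin
  have hAfg : Group.FG A := Subgroup.fg_of_index_ne_zero A
  let g : A →* f.range := f.rangeRestrict.comp A.subtype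
  have hB : g.range = A.map f.rangeRestrict := by
    rw [MonoidHom.range_comp, Subgroup.range_subtype]
  have hBfi : g.range.FiniteIndex := by
    rw [hB, Subgroup.finiteIndex_iff]
    intro h0
    have h2 := Subgroup.index_map_dvd A f.rangeRestrict_surjective
    rw [h0] at h2
    exact hw.fin.index_ne_zero (Nat.eq_zero_of_zero_dvd h2)
  have hBfg : Group.FG g.range := Group.fg_of_surjective g.rangeRestrict_surjective
  have hBbot : (⊤ : Subgroup g.range).lowerCentralSeries c = ⊥ := by
    have h1 : (⊤ : Subgroup g.range) = (⊤ : Subgroup A).map g.rangeRestrict := by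
      rw [Subgroup.map_top_of_surjective _ g.rangeRestrict_surjective]
    rw [h1, ← Subgroup.map_lowerCentralSeries, eq_bot_iff]
    rintro _ ⟨x, hx, rfl⟩
    have h2 : (x : G) ∈ D := top_lcs_le hc hx
    rw [Subgroup.mem_bot]
    apply Subtype.ext
    apply Subtype.ext
    exact hDk h2
  have hnil : Group.IsNilpotent g.range := by
    rw [Subgroup.nilpotent_iff_lowerCentralSeries]
    exact ⟨c, hBbot⟩
  have hsub : ∀ N : Subgroup g.range, N.FG := fun N =>
    Pool.Agent.N985.QS.NOE.t_NOE g.range ⊥ N hBfg ⟨∅, by simp⟩ bot_le (fun h d hd => by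
      rw [Subgroup.mem_bot.1 hd]
      simp) ⟨c, hBbot.le⟩
  have hfin : Finite ((⊤ : Subgroup g.range).lowerCentralSeries 1) := by
    refine finite_of_nilpotent Pool.Agent.N987.QS.t_FAB _
      ((Group.fg_iff_subgroup_fg _).2 (hsub _)) fun k => ?_
    refine AddMonoidHom.ext fun x => ?_
    obtain ⟨y, hy, hyx⟩ : ∃ y ∈ (⊤ : Subgroup A).lowerCentralSeries 1,
        g.rangeRestrict y = ((Additive.toMul x : (⊤ : Subgroup g.range).lowerCentralSeries 1) :
          g.range) := by
      have h1 := (Additive.toMul x : (⊤ : Subgroup g.range).lowerCentralSeries 1).2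
      have h2 : (⊤ : Subgroup g.range) = (⊤ : Subgroup A).map g.rangeRestrict := by
        rw [Subgroup.map_top_of_surjective _ g.rangeRestrict_surjective]
      have h3 : (⊤ : Subgroup g.range).lowerCentralSeries 1 =
          ((⊤ : Subgroup A).lowerCentralSeries 1).map g.rangeRestrict := by
        rw [Subgroup.map_lowerCentralSeries, ← h2]
      have h4 : ((Additive.toMul x : (⊤ : Subgroup g.range).lowerCentralSeries 1) : g.range) ∈
          ((⊤ : Subgroup A).lowerCentralSeries 1).map g.rangeRestrict := h3 ▸ h1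
      obtain ⟨y, hy, hyx⟩ := h4
      exact ⟨y, hy, hyx⟩
    obtain ⟨n, hn, h5⟩ := hab A D hw y (by
      rw [← Subgroup.top_subtype_lowerCentralSeries]
      exact ⟨y, hy, rfl⟩)
    have h6 : g.rangeRestrict (y ^ n) = 1 := by
      apply Subtype.ext
      apply Subtype.ext
      exact hDk h5
    have h7 : (Additive.toMul x : (⊤ : Subgroup g.range).lowerCentralSeries 1) ^ n = 1 := by
      apply Subtype.ext
      rw [Subgroup.coe_pow, ← hyx, ← map_pow, h6]
      rfl
    have h8 : n • x = 0 := h7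
    have h9 : n • k x = 0 := by
      rw [← map_nsmul, h8, map_zero]
    rw [nsmul_eq_mul] at h9
    rcases mul_eq_zero.1 h9 with h10 | h10
    · exact absurd (by exact_mod_cast h10) hn
    · exact h10
  have hcs : Finite (commutatorSet g.range) := by
    have h1 : commutatorSet g.range ⊆
        ((⊤ : Subgroup g.range).lowerCentralSeries 1 : Set g.range) := by
      rintro _ ⟨a, b, rfl⟩
      exact Subgroup.commutator_mem_commutator (Subgroup.mem_top a) (Subgroup.mem_top b)
    exact ((Set.finite_coe_iff.1 hfin).subset h1).to_subtype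
  have hcen : (Subgroup.center g.range).FiniteIndex := inferInstance
  exact virtAbelian_of_sub hBfi ⟨Subgroup.center g.range, hcen, fun a _ b hb =>
    (Subgroup.mem_center_iff.1 hb a)⟩

theorem main_proj (hrng : S_RNG) {G : Type} [Group G] (hG : IsQuasiSpecialGroup G)
    (hab : AbelianQuotients G) (hF : FieldImagesN G) (htree : ElementaryOnTrees G)
    {Q : Type} [Group Q] (f : G →* Q) (hQ : TreeTame Q) : VirtAbelian f.range ∧ f.ker.FG := by
  have hG' := isST_of_ab hG hab
  obtain ⟨A, D, hw, hDfg, hDk⟩ := main_gen hrng hG' hF True (fun _ => htree) f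
    (fun S h1 h2 => (hQ S h1 h2).imp_right (fun h => h.imp_right (fun h => ⟨trivial, h⟩)))
  exact ⟨concl_ab hG hab f hw hDk,
    (concl Pool.Agent.N987.QS.t_FAB Pool.Agent.N985.QS.NOE.t_NOE hG' f hw hDfg hDk).2⟩

/-! ### subgroups of finite index -/

theorem linear_equiv_aux {G H : Type} [Group G] [Group H] (e : G ≃* H) (R : Type) [CommRing R]
    (h : ∀ (n : ℕ) (ρ : G →* GL (Fin n) R), VirtNilpotent ρ.range) (n : ℕ)
    (ρ : H →* GL (Fin n) R) : VirtNilpotent ρ.range := by
  have h1 := h n (ρ.comp e.toMonoidHom)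
  have hr : (ρ.comp e.toMonoidHom).range = ρ.range := by
    ext x
    constructor
    · rintro ⟨g, rfl⟩
      exact ⟨e g, rfl⟩
    · rintro ⟨g, rfl⟩
      exact ⟨e.symm g, by simp⟩
  rwa [hr] at h1

theorem fields_sub {G : Type} [Group G] (hF : FieldImagesN G) {H : Subgroup G}
    (hH : H.FiniteIndex) : FieldImagesN H := fun H' h' K _ n ρ =>
  linear_equiv_aux (H'.equivMapOfInjective H.subtype H.subtype_injective).symm K
    (hF _ (map_finiteIndex hH h') K) n ρ

theorem ab_sub {G : Type} [Group G] (hab : AbelianQuotients G) {H : Subgroup G}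
    (hH : H.FiniteIndex) : AbelianQuotients H := by
  intro A N hw x hx
  obtain ⟨n, hn, h1⟩ := hab _ _ (wit_map hH hw) x (by
    rw [← Subgroup.map_lowerCentralSeries]
    exact ⟨x, hx, rfl⟩)
  refine ⟨n, hn, ?_⟩
  obtain ⟨y, hy, hyx⟩ := h1
  have h2 : y = x ^ n := Subtype.ext hyx
  exact h2 ▸ hy

theorem trees_sub {G : Type} [Group G] (ht : ElementaryOnTrees G) {H : Subgroup G}
    (hH : H.FiniteIndex) : ElementaryOnTrees H := by
  intro H' h' a
  let e := H'.equivMapOfInjective H.subtype H.subtype_injective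
  obtain ⟨A, hA, h1⟩ := ht _ (map_finiteIndex hH h') (a.pull e.symm.toMonoidHom)
  refine ⟨A.comap e.toMonoidHom, comap_fi _ hA, ?_⟩
  rcases h1 with ⟨v, hv⟩ | ⟨r, hr, hadj, hs⟩
  · left
    refine ⟨v, fun h hh => ?_⟩
    have h2 := hv (e h) hh
    change a.act (e.symm (e h)) v = v at h2
    rwa [e.symm_apply_apply] at h2
  · right
    refine ⟨r, hr, hadj, fun h hh => ?_⟩
    obtain ⟨m, n, h2⟩ := hs (e h) hh
    refine ⟨m, n, fun k => ?_⟩
    have h3 := h2 k
    change a.act (e.symm (e h)) (r (m + k)) = r (n + k) at h3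
    rwa [e.symm_apply_apply] at h3

end Pool.Agent.K6.H54.TR
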