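import Pool.Agent.K6.H86.QS.Main

/-!
# Project TR (helper54): actions of fundamental groups of special varieties. Statements.
-/

set_option autoImplicit false

open Filter Topology

namespace Pool.Agent.K6.H54.TR

open Pool.Agent.N212.SG Pool.Agent.N991.QS Pool.Agent.K6.H86.QS

/-! ### trees -/

/-- An action of the group `H` by automorphisms on a tree (inversions of edges are allowed). -/
structure TreeAction (H : Type) [Group H] where
  /-- the vertices -/
  V : Type
  /-- the graph -/
  T : SimpleGraph V
  tree : T.IsTree
  /-- the action -/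
  act : H →* (T ≃g T)

/-- The subgroup `A` fixes a vertex. -/
def FixesVertex {H : Type} [Group H] (a : TreeAction H) (A : Subgroup H) : Prop :=
  ∃ v : a.V, ∀ h ∈ A, a.act h v = v

/-- The subgroup `A` fixes an end: there is a ray `r` such that for every `h` in `A` the rays `r` and
`h r` coincide eventually (up to a shift). -/
def FixesEnd {H : Type} [Group H] (a : TreeAction H) (A : Subgroup H) : Prop :=
  ∃ r : ℕ → a.V, Function.Injective r ∧ (∀ k, a.T.Adj (r k) (r (k + 1))) ∧
    ∀ h ∈ A, ∃ m n : ℕ, ∀ k, a.act h (r (m + k)) = r (n + k)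

/-- Whenever a subgroup `H` of finite index of `G` acts on a tree, a subgroup of finite index of `H`
fixes a vertex or an end. -/
def ElementaryOnTrees (G : Type) [Group G] : Prop :=
  ∀ H : Subgroup G, H.FiniteIndex → ∀ a : TreeAction H,
    ∃ A : Subgroup H, A.FiniteIndex ∧ (FixesVertex a A ∨ FixesEnd a A)

/-! ### representations over fields -/

/-- The images of the finite-dimensional representations of the subgroups of finite index over
arbitrary fields are virtually abelian. -/
def FieldImages (G : Type) [Group G] : Prop :=
  ∀ H : Subgroup G, H.FiniteIndex → ∀ (K : Type) [Field K] (n : ℕ) (ρ : H →* GL (Fin n) K),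
    VirtAbelian ρ.range

/-- The images of the finite-dimensional representations of the subgroups of finite index over
arbitrary fields are virtually nilpotent. -/
def FieldImagesN (G : Type) [Group G] : Prop :=
  ∀ H : Subgroup G, H.FiniteIndex → ∀ (K : Type) [Field K] (n : ℕ) (ρ : H →* GL (Fin n) K),
    VirtNilpotent ρ.range

/-! ### the class of groups -/

/-- A subgroup of finite index of `S` has a nonzero homomorphism to `ℂ`. -/
def VirtIndic (S : Type) [Group S] : Prop := ∃ L : Subgroup S, L.FiniteIndex ∧ ∃ f : H1 L, f ≠ 0

/-- The subgroup `S` of `Q` has an infinite image under a representation of a subgroup of finite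
index of `Q` over a commutative ring. -/
def RingInfinite {Q : Type} [Group Q] (S : Subgroup Q) : Prop :=
  ∃ Q' : Subgroup Q, Q'.FiniteIndex ∧ ∃ (R : Type) (_ : CommRing R) (n : ℕ)
    (ρ : Q' →* GL (Fin n) R), Infinite ((S.subgroupOf Q').map ρ)

/-- For some action of a subgroup `Q'` of finite index of `Q` on a tree no subgroup of finite index
of `S ∩ Q'` fixes a vertex. -/
def TreeUnbounded {Q : Type} [Group Q] (S : Subgroup Q) : Prop :=
  ∃ Q' : Subgroup Q, Q'.FiniteIndex ∧ ∃ a : TreeAction Q', ∀ L : Subgroup Q',
    L ≤ S.subgroupOf Q' → (L.subgroupOf (S.subgroupOf Q')).FiniteIndex → ¬ FixesVertex a L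

/-- Every infinite finitely generated subgroup `S` has a subgroup of finite index with a nonzero
homomorphism to `ℂ`, or an infinite image under a representation of (a subgroup of finite index
of) `Q` over some commutative ring. -/
def RingTame (Q : Type) [Group Q] : Prop :=
  ∀ S : Subgroup Q, S.FG → Infinite S → VirtIndic S ∨ RingInfinite S

/-- Every infinite finitely generated subgroup `S` has a subgroup of finite index with a nonzero
homomorphism to `ℂ`, or an infinite image under a representation of (a subgroup of finite index
of) `Q` over some commutative ring, or no subgroup of finite index of `S` fixes a vertex of some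
tree on which (a subgroup of finite index of) `Q` acts. -/
def TreeTame (Q : Type) [Group Q] : Prop :=
  ∀ S : Subgroup Q, S.FG → Infinite S → VirtIndic S ∨ RingInfinite S ∨ TreeUnbounded S

/-! ### germs -/

/-- An action of the group `H` by germs at `0` of `C¹` diffeomorphisms of `ℝⁿ` which fix `0`. -/
structure GermAction (H : Type) [Group H] (n : ℕ) where
  /-- representatives of the germs -/
  f : H → (Fin n → ℝ) → (Fin n → ℝ)
  zero : ∀ g, f g 0 = 0
  smooth : ∀ g, ContDiffAt ℝ 1 (f g) 0
  one : f 1 =ᶠ[𝓝 0] id
  mul : ∀ g h, f (g * h) =ᶠ[𝓝 0] f g ∘ f h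

/-! ### the leaves -/

/-- RNG. A representation of a finitely generated group over a commutative ring has an elementary
amenable image, if this is true for all representations over fields. -/
def S_RNG : Prop :=
  ∀ (Γ : Type) [Group Γ], Group.FG Γ →
    (∀ (K : Type) [Field K] (n : ℕ) (ρ : Γ →* GL (Fin n) K), ElemAmenable.{0} ρ.range) →
    ∀ (R : Type) [CommRing R] (n : ℕ) (ρ : Γ →* GL (Fin n) R), ElemAmenable.{0} ρ.range

/-- THU. Thurston's stability theorem. -/
def S_THU : Prop :=
  ∀ (Γ : Type) [Group Γ] (n : ℕ) (a : GermAction Γ n), Group.FG Γ →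
    (∀ g, fderiv ℝ (a.f g) 0 = ContinuousLinearMap.id ℝ (Fin n → ℝ)) →
    (∃ g, ¬ (a.f g =ᶠ[𝓝 0] id)) → ∃ k : Additive Γ →+ ℝ, k ≠ 0

end Pool.Agent.K6.H54.TR
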