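import Pool.Agent.K6.H54.TR.Stm

/-!
# Project TR (helper54): finitely generated groups without homomorphisms to `ℂ` which fix an end
fix a vertex
-/

set_option autoImplicit false

namespace Pool.Agent.K6.H54.TR

open Pool.Agent.N212.SG Pool.Agent.N991.QS Pool.Agent.K6.H86.QS

variable {H : Type} [Group H]

/-- The shift at an end. -/
theorem shift_unique {a : TreeAction H} {r : ℕ → a.V} (hr : Function.Injective r) {h : H}
    {m n m' n' : ℕ} (h1 : ∀ k, a.act h (r (m + k)) = r (n + k))
    (h2 : ∀ k, a.act h (r (m' + k)) = r (n' + k)) : (n : ℤ) - m = n' - m' := by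
  have e1 := h1 m'
  have e2 := h2 m
  rw [Nat.add_comm m m', e2] at e1
  have := hr e1
  omega

/-- A finitely generated subgroup without homomorphisms to `ℂ` which fixes an end fixes a
vertex. -/
theorem end_vertex (a : TreeAction H) (D : Subgroup H) (hA : FixesEnd a D) (hfg : D.FG)
    (hD : ∀ f : H1 D, f = 0) : FixesVertex a D := by
  obtain ⟨r, hr, -, hs⟩ := hA
  choose! m n hmn using hs
  -- the homomorphism
  have hmul : ∀ x y : D, ((n (x * y : D) : ℤ) - m (x * y : D)) =
      ((n x : ℤ) - m x) + ((n y : ℤ) - m y) := by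
    intro x y
    have h1 := hmn x x.2
    have h2 := hmn y y.2
    have h3 := hmn (x * y : D) (x * y).2
    have h4 : ∀ k, a.act ((x * y : D) : H) (r (m y + m x + k)) = r (n x + n y + k) := by
      intro k
      rw [Subgroup.coe_mul, map_mul, RelIso.mul_apply]
      have e1 := h2 (m x + k)
      rw [← Nat.add_assoc] at e1
      rw [e1]
      have e2 := h1 (n y + k)
      rw [← Nat.add_assoc, ← Nat.add_assoc] at e2
      rw [← Nat.add_assoc, Nat.add_comm (n y) (m x)]
      exact e2
    have h5 := shift_unique hr h3 h4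
    rw [Nat.cast_add, Nat.cast_add] at h5
    linarith
  let φ : Additive D →+ ℂ :=
    { toFun := fun x => (((n (Additive.toMul x : D) : ℤ) - m (Additive.toMul x : D) : ℤ) : ℂ)
      map_zero' := by
        have h1 := hmul 1 1
        rw [mul_one] at h1
        have h2 : ((n ((1 : D) : H) : ℤ) - m ((1 : D) : H)) = 0 := by linarith
        change (((n ((1 : D) : H) : ℤ) - m ((1 : D) : H) : ℤ) : ℂ) = 0
        rw [h2]
        simp
      map_add' := fun x y => by
        have h1 := hmul (Additive.toMul x) (Additive.toMul y)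
        change (((n ((Additive.toMul x * Additive.toMul y : D) : H) : ℤ) -
          m ((Additive.toMul x * Additive.toMul y : D) : H) : ℤ) : ℂ) = _
        rw [h1]
        push_cast
        ring }
  have hφ := hD φ
  have hzero : ∀ x : D, (n x : ℤ) = m x := by
    intro x
    have h1 : φ (Additive.ofMul x) = 0 := by rw [hφ]; rfl
    change (((n (x : H) : ℤ) - m (x : H) : ℤ) : ℂ) = 0 at h1
    have h2 : ((n (x : H) : ℤ) - m (x : H)) = 0 := by exact_mod_cast h1
    linarith
  have hfix : ∀ x ∈ D, ∀ k, a.act x (r (m x + k)) = r (m x + k) := by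
    intro x hx k
    have h1 := hmn x hx k
    have h2 := hzero ⟨x, hx⟩
    have h3 : n x = m x := by exact_mod_cast h2
    rw [h1, h3]
  obtain ⟨s, hs⟩ := hfg
  refine ⟨r (s.sup m), ?_⟩
  have hgen : ∀ x ∈ s, a.act x (r (s.sup m)) = r (s.sup m) := by
    intro x hx
    have hxD : x ∈ D := by
      rw [← hs]
      exact Subgroup.subset_closure hx
    obtain ⟨k, hk⟩ := Nat.exists_eq_add_of_le (Finset.le_sup (f := m) hx)
    rw [hk]
    exact hfix x hxD k
  intro x hx
  rw [← hs] at hx
  induction hx using Subgroup.closure_induction with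
  | mem x hx => exact hgen x hx
  | one => rw [map_one]; rfl
  | mul x y _ _ h1 h2 => rw [map_mul, RelIso.mul_apply, h2, h1]
  | inv x _ h1 =>
    rw [map_inv]
    have h2 : (a.act x)⁻¹ (a.act x (r (s.sup m))) = (a.act x)⁻¹ (r (s.sup m)) := by rw [h1]
    rw [← RelIso.mul_apply, inv_mul_cancel] at h2
    exact h2.symm

theorem FixesEnd.mono {a : TreeAction H} {A B : Subgroup H} (h : FixesEnd a A) (hBA : B ≤ A) :
    FixesEnd a B := by
  obtain ⟨r, h1, h2, h3⟩ := h
  exact ⟨r, h1, h2, fun h hh => h3 h (hBA hh)⟩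

theorem FixesVertex.mono {a : TreeAction H} {A B : Subgroup H} (h : FixesVertex a A)
    (hBA : B ≤ A) : FixesVertex a B := by
  obtain ⟨v, hv⟩ := h
  exact ⟨v, fun h hh => hv h (hBA hh)⟩

/-- The action of a group that maps to `H`. -/
def TreeAction.pull {H' : Type} [Group H'] (a : TreeAction H) (g : H' →* H) : TreeAction H' where
  V := a.V
  T := a.T
  tree := a.tree
  act := a.act.comp g

end Pool.Agent.K6.H54.TR
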